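import Pool.Agent.Helper6.QS.Fin3

/-!
# Almost every totally real quintic is the minimal polynomial of a symmetric integer matrix

Among the monic integer polynomials of degree 5 with five distinct real zeros, all of them in
`[-H, H]`, the proportion of those which are the minimal polynomial of a symmetric integer matrix of
size 20 tends to 1 as `H` tends to infinity.
-/

open Polynomial

namespace Pool.Agent.Results.MP_1f08eb_nt.AlmostAll

open Helper6.QS

theorem roots_prod_fin (α : Fin 5 → ℝ) :
    (∏ i, (X - C (α i)) : ℝ[X]).roots = Finset.univ.val.map α := by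
  have : (∏ i, (X - C (α i)) : ℝ[X]) = ((Finset.univ.val.map α).map (fun a => X - C a)).prod := by
    rw [Multiset.map_map]
    rfl
  rw [this, roots_multiset_prod_X_sub_C]

theorem mem_TT_iff (H : ℕ) (P : ℤ[X]) : P ∈ TT H ↔ (P.Monic ∧ P.natDegree = 5 ∧
    (P.map (Int.castRingHom ℚ)).Separable ∧ (P.map (Int.castRingHom ℝ)).roots.card = 5 ∧
    ∀ x ∈ (P.map (Int.castRingHom ℝ)).roots, |x| ≤ H) := by
  constructor
  · intro h
    have hs := TT_separable h
    obtain ⟨hP, hd, α, hα, hb, hr⟩ := h
    have h1 := real_prod hP hd hα.injective hr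
    refine ⟨hP, hd, hs, ?_, ?_⟩
    · rw [h1, roots_prod_fin]
      simp
    · intro x hx
      rw [h1, roots_prod_fin] at hx
      simp only [Multiset.mem_map, Finset.mem_val, Finset.mem_univ, true_and] at hx
      obtain ⟨i, rfl⟩ := hx
      exact hb i
  · rintro ⟨hP, hd, hs, hc, hb⟩
    have h2 : (P.map (Int.castRingHom ℚ)).map (algebraMap ℚ ℝ) = P.map (Int.castRingHom ℝ) := by
      rw [map_map]
      congr 1
    have hsR : (P.map (Int.castRingHom ℝ)).Separable := by
      rw [← h2, separable_map]
      exact hs
    have hnd := nodup_roots hsR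
    have hcard : (P.map (Int.castRingHom ℝ)).roots.toFinset.card = 5 := by
      rw [Multiset.toFinset_card_of_nodup hnd, hc]
    refine ⟨hP, hd, (P.map (Int.castRingHom ℝ)).roots.toFinset.orderEmbOfFin hcard,
      OrderEmbedding.strictMono _, ?_, ?_⟩
    · intro i
      apply hb
      have := Finset.orderEmbOfFin_mem _ hcard i
      rwa [Multiset.mem_toFinset] at this
    · intro i
      have := Finset.orderEmbOfFin_mem _ hcard i
      rw [Multiset.mem_toFinset, mem_roots (hP.map _).ne_zero, IsRoot.def] at this
      rw [aeval_def, eval₂_eq_eval_map]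
      exact this

/-- The denominator counts the monic integer quintics with five distinct real zeros (separable over
the rationals and with five real zeros), all in `[-H, H]`; the numerator counts those of them which
are minimal polynomials of symmetric integer matrices of size 20. The number of members of the
family is at least a constant times `H ^ 15` and, as the limit is 1, finite and not 0 for large `H`. -/
theorem result :
    Filter.Tendsto (fun H : ℕ =>
      (Set.ncard {P : ℤ[X] | (P.Monic ∧ P.natDegree = 5 ∧ (P.map (Int.castRingHom ℚ)).Separable ∧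
          (P.map (Int.castRingHom ℝ)).roots.card = 5 ∧
          ∀ x ∈ (P.map (Int.castRingHom ℝ)).roots, |x| ≤ H) ∧
          ∃ A : Matrix (Fin 20) (Fin 20) ℤ, A.IsSymm ∧
            minpoly ℚ (A.map (Int.cast : ℤ → ℚ)) = P.map (Int.castRingHom ℚ)} : ℝ) /
      (Set.ncard {P : ℤ[X] | P.Monic ∧ P.natDegree = 5 ∧ (P.map (Int.castRingHom ℚ)).Separable ∧
          (P.map (Int.castRingHom ℝ)).roots.card = 5 ∧
          ∀ x ∈ (P.map (Int.castRingHom ℝ)).roots, |x| ≤ H} : ℝ))
      Filter.atTop (nhds 1) := by
  have h := density
  simp only [mem_TT_iff, IsMP] at h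
  have e : ∀ H : ℕ, TT H = {P : ℤ[X] | P.Monic ∧ P.natDegree = 5 ∧
      (P.map (Int.castRingHom ℚ)).Separable ∧ (P.map (Int.castRingHom ℝ)).roots.card = 5 ∧
      ∀ x ∈ (P.map (Int.castRingHom ℝ)).roots, |x| ≤ H} := by
    intro H
    ext P
    exact mem_TT_iff H P
  simp only [e] at h
  exact h

end Pool.Agent.Results.MP_1f08eb_nt.AlmostAll
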