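import Pool.Agent.Helper6.QS.Fin1

/-!
# A sufficient criterion for quintics

A separable quintic `(x - d) q₁ q₂ - g₁ q₂ - g₂ q₁` with integer quadratics
`q_i = x² + u_i x + v_i`, `u_i` odd, and integer linear polynomials `g_i = m_i x + n_i` with
`m_i > 0` whose zero lies strictly between the zeros of `q_i`, is the minimal polynomial of a
symmetric integer matrix of size 20.
-/

open Polynomial

namespace Pool.Agent.Results.MP_1f08eb_nt.Criterion

open Helper6.QS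

/-- The condition `n² - u n m + v m² < 0` says that `q = x² + u x + v` is negative at the zero
`-n/m` of `g = m x + n`. -/
theorem result (P : ℤ[X]) (hs : (P.map (Int.castRingHom ℚ)).Separable)
    (u1 v1 u2 v2 d m1 n1 m2 n2 : ℤ) (hu1 : Odd u1) (hu2 : Odd u2) (hm1 : 0 < m1) (hm2 : 0 < m2)
    (h1 : n1 ^ 2 - u1 * n1 * m1 + v1 * m1 ^ 2 < 0) (h2 : n2 ^ 2 - u2 * n2 * m2 + v2 * m2 ^ 2 < 0)
    (hP : P = (X - C d) * (X ^ 2 + C u1 * X + C v1) * (X ^ 2 + C u2 * X + C v2)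
      - (C m1 * X + C n1) * (X ^ 2 + C u2 * X + C v2)
      - (C m2 * X + C n2) * (X ^ 2 + C u1 * X + C v1)) :
    ∃ A : Matrix (Fin 20) (Fin 20) ℤ, A.IsSymm ∧
      minpoly ℚ (A.map (Int.cast : ℤ → ℚ)) = P.map (Int.castRingHom ℚ) :=
  good_isMP P ⟨u1, v1, u2, v2, d, m1, n1, m2, n2, hu1, hu2, hm1, hm2, h1, h2, hP⟩ hs

end Pool.Agent.Results.MP_1f08eb_nt.Criterion
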