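import Pool.Agent.Helper28.SQ.Main

/-!
# Quintics with well separated zeros are minimal polynomials of symmetric integer matrices
-/

set_option autoImplicit false

open Polynomial

namespace Pool.Agent.Results.MP_1f08eb_nt.Separated

/-- Let `P` be a monic integer polynomial of degree five with real zeros `l 0 < ... < l 4` such
that the four gaps are at least `2000` and such that for any two of the four intervals between
neighbouring zeros the product of their lengths is at least `1000` times their distance. Then `P`
is the minimal polynomial of a symmetric integer matrix. -/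
theorem result (P : ℤ[X]) (hP : P.Monic) (l : Fin 5 → ℝ) (hl : StrictMono l)
    (hroots : P.map (Int.castRingHom ℝ) = ∏ i, (X - C (l i)))
    (hgap : ∀ i : Fin 4, 2000 ≤ l i.succ - l i.castSucc)
    (hsep : ∀ i j : Fin 4, i < j → 1000 * (l j.castSucc - l i.succ) ≤
      (l i.succ - l i.castSucc) * (l j.succ - l j.castSucc)) :
    ∃ (n : ℕ) (A : Matrix (Fin n) (Fin n) ℤ), A.IsSymm ∧
      minpoly ℚ (A.map (Int.cast : ℤ → ℚ)) = P.map (Int.castRingHom ℚ) :=
  Pool.Agent.Helper28.SQ.separated hP hl hroots hgap hsep

end Pool.Agent.Results.MP_1f08eb_nt.Separated
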